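import Pool.Agent.Y414.Genus.Main

set_option autoImplicit false

/-!
# Minimum genus embeddings of bridgeless cubic graphs need not have circuit boundaries

Two copies of `K_{2,3}` joined by three independent edges (10 vertices): the graph is simple, cubic,
3-edge-connected and has genus one, and in each of its cellular embeddings in the torus the boundary
walk of some region traverses an edge twice. All 1024 rotation systems are checked by the kernel.
-/

namespace Pool.Agent.Results.MP_f8ee93_co.TenVertices

open Pool.Agent.Y414.Genus

/-- **Negative answer to Q1.** -/
theorem result : ∃ G : SimpleGraph (Fin 10), (∀ v, (G.neighborSet v).ncard = 3) ∧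
    G.IsEdgeConnected 3 ∧ IsGenus G 1 ∧
    ∀ R : RotationSystem G, R.HasGenus 1 → R.RepeatsEdge :=
  Ten.main

end Pool.Agent.Results.MP_f8ee93_co.TenVertices
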